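import Mathlib

/-!
# Sublinear functions and infinite hidden sets

The combinatorial core of `MP_ec84ce_an`: for two sublinear functions `pD ≤ p` either finitely many
linear functionals below `p` detect all points of `{pD ≤ 1 < p}`, or there is an infinite subset of
`{pD ≤ 1 < p}` such that every segment between two distinct points of it meets `{p ≤ 1}`.
-/

set_option autoImplicit false

open Set Filter Topology

namespace Pool.Agent.helper32.Hidden

variable {V : Type*} [AddCommGroup V] [Module ℝ V]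

/-- Nonnegative sublinear functions. -/
structure Sublin (p : V → ℝ) : Prop where
  add : ∀ x y, p (x + y) ≤ p x + p y
  smul : ∀ c : ℝ, 0 ≤ c → ∀ x, p (c • x) = c * p x
  nonneg : ∀ x, 0 ≤ p x

namespace Sublin

variable {p : V → ℝ} (hp : Sublin p)
include hp

lemma le_add_sub (x y : V) : p x ≤ p y + p (x - y) := by
  have := hp.add y (x - y)
  rwa [add_sub_cancel] at this

lemma smul_le (s : ℝ) (v : V) : p (s • v) ≤ |s| * (p v + p (-v)) := by
  rcases le_or_gt 0 s with hs | hs
  · rw [hp.smul s hs, abs_of_nonneg hs]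
    have := hp.nonneg (-v)
    nlinarith
  · have h1 : s • v = (-s) • (-v) := by rw [smul_neg, neg_smul, neg_neg]
    rw [h1, hp.smul (-s) (by linarith), abs_of_neg hs]
    have := hp.nonneg v
    nlinarith

lemma abs_sub_le (x v : V) (s : ℝ) : |p (x + s • v) - p x| ≤ |s| * (p v + p (-v)) := by
  rw [abs_le]
  constructor
  · have h1 := hp.add (x + s • v) ((-s) • v)
    rw [add_assoc, ← add_smul, add_neg_cancel, zero_smul, add_zero] at h1
    have h2 := hp.smul_le (-s) v
    rw [abs_neg] at h2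
    linarith
  · have h1 := hp.add x (s • v)
    have h2 := hp.smul_le s v
    linarith

lemma tendsto_line (x v : V) : Tendsto (fun s : ℝ => p (x + s • v)) (𝓝 0) (𝓝 (p x)) := by
  rw [tendsto_iff_norm_sub_tendsto_zero]
  have h1 : Tendsto (fun s : ℝ => |s| * (p v + p (-v))) (𝓝 0) (𝓝 0) := by
    have : Tendsto (fun s : ℝ => |s| * (p v + p (-v))) (𝓝 0) (𝓝 (|0| * (p v + p (-v)))) :=
      (continuous_abs.tendsto 0).mul_const _
    simpa using this
  refine squeeze_zero (fun s => norm_nonneg _) (fun s => ?_) h1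
  rw [Real.norm_eq_abs]
  exact hp.abs_sub_le x v s

/-- Hahn–Banach: a support functional at `x`. -/
lemma exists_support (x : V) : ∃ f : V →ₗ[ℝ] ℝ, (∀ y, f y ≤ p y) ∧ f x = p x := by
  by_cases hx : x = 0
  · refine ⟨0, fun y => by simpa using hp.nonneg y, ?_⟩
    have := hp.smul 0 le_rfl 0
    rw [zero_smul, zero_mul] at this
    rw [hx, this]; simp
  · let f : V →ₗ.[ℝ] ℝ := LinearPMap.mkSpanSingleton x (p x) hx
    obtain ⟨g, hg1, hg2⟩ := exists_extension_of_le_sublinear f p
      (fun c hc x => hp.smul c hc.le x) hp.add (by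
        rintro ⟨y, hy⟩
        obtain ⟨c, rfl⟩ := Submodule.mem_span_singleton.mp hy
        have : f ⟨c • x, hy⟩ = (RingHom.id ℝ) c • p x := LinearPMap.mkSpanSingleton'_apply _ _ _ _ _
        rw [this]
        change c * p x ≤ p (c • x)
        rcases le_or_gt 0 c with hc | hc
        · rw [hp.smul c hc]
        · have h1 := hp.nonneg x
          have h2 := hp.nonneg (c • x)
          nlinarith)
    refine ⟨g, hg2, ?_⟩
    have h1 : (x : V) ∈ f.domain := Submodule.mem_span_singleton_self x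
    have h2 := hg1 ⟨x, h1⟩
    simp only at h2
    rw [h2]
    exact LinearPMap.mkSpanSingleton_apply ℝ ℝ hx (p x)

end Sublin

/-- `p` is differentiable at `x` in all directions. -/
def Smooth (p : V → ℝ) (x : V) : Prop :=
  ∀ v, ∀ η > 0, ∃ s₀ > 0, ∀ s : ℝ, 0 < s → s ≤ s₀ → p (x + s • v) + p (x - s • v) ≤ 2 * p x + η * s

/-- the relation used in the greedy construction -/
def Rel (p : V → ℝ) (a w : V) : Prop := ∃ t > 0, p (a + t • w) < 1 + t * p w

lemma rel_of_smooth {p : V → ℝ} (hp : Sublin p) {x : V} (hx : Smooth p x) {f : V →ₗ[ℝ] ℝ}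
    (hf : ∀ y, f y ≤ p y) (hfx : f x = p x) {a : V} (ha : f a < 1) : Rel p a x := by
  obtain ⟨s₀, hs₀, h⟩ := hx a ((1 - f a) / 2) (by linarith)
  have h1 := h s₀ hs₀ le_rfl
  have h2 := hf (x - s₀ • a)
  rw [map_sub, map_smul, hfx, smul_eq_mul] at h2
  refine ⟨1 / s₀, by positivity, ?_⟩
  have h3 : a + (1 / s₀) • x = (1 / s₀) • (x + s₀ • a) := by
    rw [smul_add, smul_smul, one_div_mul_cancel hs₀.ne', one_smul, add_comm]
  rw [h3, hp.smul _ (by positivity)]
  have h4 : p (x + s₀ • a) < p x + s₀ := by nlinarith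
  have h5 : (1 / s₀) * p (x + s₀ • a) < (1 / s₀) * (p x + s₀) := by
    apply mul_lt_mul_of_pos_left h4 (by positivity)
  calc (1 / s₀) * p (x + s₀ • a) < (1 / s₀) * (p x + s₀) := h5
    _ = 1 + 1 / s₀ * p x := by field_simp; ring

lemma lt_add_of_smooth {p : V → ℝ} (hp : Sublin p) {x y : V} (hx : Smooth p x) (hy : Smooth p y)
    {f g : V →ₗ[ℝ] ℝ} (hf : ∀ z, f z ≤ p z) (hfx : f x = p x) (hg : ∀ z, g z ≤ p z)
    (hgy : g y = p y) (hne : f ≠ g) : p (x + y) < p x + p y := by
  have hv : ∃ v, g v < f v := by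
    by_contra hcon
    push Not at hcon
    apply hne
    ext v
    have h1 := hcon v
    have h2 := hcon (-v)
    rw [map_neg, map_neg] at h2
    linarith
  obtain ⟨v, hv⟩ := hv
  set η := (f v - g v) / 4 with hη
  have hη0 : 0 < η := by rw [hη]; linarith
  obtain ⟨s₁, hs₁, h₁⟩ := hx v η hη0
  obtain ⟨s₂, hs₂, h₂⟩ := hy v η hη0
  set s := min s₁ s₂ with hs
  have hs0 : 0 < s := lt_min hs₁ hs₂
  have e1 := h₁ s hs0 (min_le_left _ _)
  have e2 := h₂ s hs0 (min_le_right _ _)
  have e3 := hf (x + s • v)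
  rw [map_add, map_smul, hfx, smul_eq_mul] at e3
  have e4 := hg (y - s • v)
  rw [map_sub, map_smul, hgy, smul_eq_mul] at e4
  have e5 := hp.add (x - s • v) (y + s • v)
  rw [show x - s • v + (y + s • v) = x + y by abel] at e5
  have e6 : s * (f v - g v) = 4 * (η * s) := by rw [hη]; ring
  have e7 : 0 < η * s := by positivity
  nlinarith

/-- A family of sets of directions that are still available. -/
structure Family (p pD : V → ℝ) (𝒲 : Set (Set V)) : Prop where
  lt : ∀ W ∈ 𝒲, ∀ w ∈ W, pD w < p w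
  step : ∀ W ∈ 𝒲, ∃ y ∈ W, ∀ᶠ δ : ℝ in 𝓝[>] 0, ∃ W' ∈ 𝒲, W' ⊆ W ∧
    ∀ w ∈ W', Rel p ((1 + δ) • ((p y)⁻¹ • y)) w

/-- states of the greedy construction -/
def IsState (p pD : V → ℝ) (𝒲 : Set (Set V)) (q : Finset V × Set V) : Prop :=
  q.2 ∈ 𝒲 ∧ (∀ a ∈ q.1, pD a ≤ 1 ∧ 1 < p a) ∧
  (∀ a ∈ q.1, ∀ b ∈ q.1, a ≠ b → ∃ c ∈ segment ℝ a b, p c ≤ 1) ∧
  ∀ a ∈ q.1, ∀ w ∈ q.2, Rel p a w

lemma exists_next {p pD : V → ℝ} (hp : Sublin p) (hD : Sublin pD) {𝒲 : Set (Set V)}
    (h𝒲 : Family p pD 𝒲) (q : Finset V × Set V) (hq : IsState p pD 𝒲 q) :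
    ∃ q' : Finset V × Set V, IsState p pD 𝒲 q' ∧ q.1 ⊆ q'.1 ∧ q.1.card < q'.1.card := by
  classical
  obtain ⟨hW, hmem, hpair, hrel⟩ := hq
  obtain ⟨y, hyW, hy⟩ := h𝒲.step q.2 hW
  have hlt := h𝒲.lt q.2 hW y hyW
  have hpy : 0 < p y := lt_of_le_of_lt (hD.nonneg y) hlt
  set u : V := (p y)⁻¹ • y with hu
  have hpu : p u = 1 := by rw [hu, hp.smul _ (by positivity), inv_mul_cancel₀ hpy.ne']
  have hDu : pD u < 1 := by
    rw [hu, hD.smul _ (by positivity), inv_mul_lt_iff₀ hpy, mul_one]; exact hlt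
  -- conditions for small `δ`
  have hδ0 : ∀ᶠ δ : ℝ in 𝓝[>] 0, 0 < δ := eventually_mem_nhdsWithin
  have hδ1 : ∀ᶠ δ : ℝ in 𝓝[>] 0, (1 + δ) * pD u ≤ 1 := by
    have : Tendsto (fun δ : ℝ => (1 + δ) * pD u) (𝓝[>] 0) (𝓝 ((1 + 0) * pD u)) := by
      apply Tendsto.mono_left _ nhdsWithin_le_nhds
      exact (by fun_prop : Continuous (fun δ : ℝ => (1 + δ) * pD u)).tendsto 0
    exact (this.eventually (gt_mem_nhds (by linarith))).mono fun δ h => h.le
  have hδ2 : ∀ a ∈ q.1, ∀ᶠ δ : ℝ in 𝓝[>] 0, ∃ c ∈ segment ℝ a ((1 + δ) • u), p c ≤ 1 := by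
    intro a ha
    obtain ⟨t, ht, htlt⟩ := hrel a ha y hyW
    set t' : ℝ := t * p y with ht'
    have ht'0 : 0 < t' := by positivity
    have h1 : t • y = t' • u := by
      rw [ht', hu, smul_smul, mul_assoc, mul_inv_cancel₀ hpy.ne', mul_one]
    rw [h1] at htlt
    have h2 : Tendsto (fun δ : ℝ => p (a + t' • u) + t' * δ) (𝓝[>] 0)
        (𝓝 (p (a + t' • u) + t' * 0)) := by
      apply Tendsto.mono_left _ nhdsWithin_le_nhds
      exact (by fun_prop : Continuous (fun δ : ℝ => p (a + t' • u) + t' * δ)).tendsto 0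
    have h3 : ∀ᶠ δ : ℝ in 𝓝[>] 0, p (a + t' • u) + t' * δ < 1 + t' :=
      h2.eventually (gt_mem_nhds (by linarith))
    filter_upwards [h3, hδ0] with δ h4 h5
    refine ⟨(1 / (1 + t')) • a + (t' / (1 + t')) • ((1 + δ) • u), ?_, ?_⟩
    · exact ⟨1 / (1 + t'), t' / (1 + t'), by positivity, by positivity, by field_simp, rfl⟩
    · have h6 : (1 / (1 + t')) • a + (t' / (1 + t')) • ((1 + δ) • u) =
          (1 / (1 + t')) • ((a + t' • u) + (t' * δ) • u) := by
        match_scalars <;> field_simp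
      rw [h6, hp.smul _ (by positivity)]
      have h7 := hp.add (a + t' • u) ((t' * δ) • u)
      rw [hp.smul (t' * δ) (by positivity), hpu, mul_one] at h7
      rw [div_mul_eq_mul_div, one_mul, div_le_one (by positivity)]
      linarith
  have hδ3 : ∀ᶠ δ : ℝ in 𝓝[>] 0, ∀ a ∈ q.1, ∃ c ∈ segment ℝ a ((1 + δ) • u), p c ≤ 1 :=
    (Filter.eventually_all_finset q.1).mpr hδ2
  obtain ⟨δ, ⟨⟨h0, h1⟩, h3⟩, W', hW', hsub, hrel'⟩ := (((hδ0.and hδ1).and hδ3).and hy).exists
  set a : V := (1 + δ) • u with ha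
  have hpa : 1 < p a := by
    rw [ha, hp.smul _ (by linarith), hpu]; linarith
  have hDa : pD a ≤ 1 := by
    rw [ha, hD.smul _ (by linarith)]; exact h1
  have hnot : a ∉ q.1 := by
    intro hmem'
    obtain ⟨c, hc, hpc⟩ := h3 a hmem'
    rw [segment_same] at hc
    rw [mem_singleton_iff.mp hc] at hpc
    linarith
  refine ⟨(insert a q.1, W'), ⟨hW', ?_, ?_, ?_⟩, Finset.subset_insert _ _, ?_⟩
  · intro b hb
    rcases Finset.mem_insert.mp hb with rfl | hb
    · exact ⟨hDa, hpa⟩
    · exact hmem b hb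
  · intro b hb c hc hbc
    rcases Finset.mem_insert.mp hb with rfl | hb <;> rcases Finset.mem_insert.mp hc with rfl | hc
    · exact (hbc rfl).elim
    · obtain ⟨z, hz, hpz⟩ := h3 c hc
      exact ⟨z, by rw [segment_symm]; exact hz, hpz⟩
    · exact h3 b hb
    · exact hpair b hb c hc hbc
  · intro b hb w hw
    rcases Finset.mem_insert.mp hb with rfl | hb
    · exact hrel' w hw
    · exact hrel b hb w (hsub hw)
  · simp only
    rw [Finset.card_insert_of_notMem hnot]
    exact Nat.lt_succ_self _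

/-- The greedy construction. -/
lemma exists_infinite {p pD : V → ℝ} (hp : Sublin p) (hD : Sublin pD) {𝒲 : Set (Set V)}
    (h𝒲 : Family p pD 𝒲) (hne : 𝒲.Nonempty) :
    ∃ A : Set V, A.Infinite ∧ (∀ a ∈ A, pD a ≤ 1 ∧ 1 < p a) ∧
      ∀ a ∈ A, ∀ b ∈ A, a ≠ b → ∃ c ∈ segment ℝ a b, p c ≤ 1 := by
  classical
  obtain ⟨W₀, hW₀⟩ := hne
  let State := {q : Finset V × Set V // IsState p pD 𝒲 q}
  choose next hnext1 hnext2 hnext3 using fun q : State => exists_next hp hD h𝒲 q.1 q.2
  let step : State → State := fun q => ⟨next q, hnext1 q⟩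
  let q₀ : State := ⟨(∅, W₀), hW₀, by simp, by simp, by simp⟩
  let σ : ℕ → State := fun n => step^[n] q₀
  have hσ : ∀ n, σ (n + 1) = step (σ n) := fun n => Function.iterate_succ_apply' step n q₀
  have hmono : Monotone (fun n => (σ n).1.1) := by
    apply monotone_nat_of_le_succ
    intro n
    rw [hσ]
    exact hnext2 (σ n)
  have hcard : ∀ n, n ≤ (σ n).1.1.card := by
    intro n
    induction n with
    | zero => exact Nat.zero_le _
    | succ n ih =>
      rw [hσ]
      exact lt_of_le_of_lt ih (hnext3 (σ n))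
  refine ⟨⋃ n, ((σ n).1.1 : Set V), ?_, ?_, ?_⟩
  · intro hfin
    have h1 : (σ (hfin.toFinset.card + 1)).1.1 ⊆ hfin.toFinset := by
      intro x hx
      rw [Set.Finite.mem_toFinset, mem_iUnion]
      exact ⟨_, hx⟩
    have h2 := Finset.card_le_card h1
    have h3 := hcard (hfin.toFinset.card + 1)
    omega
  · intro a ha
    obtain ⟨n, hn⟩ := mem_iUnion.mp ha
    exact (σ n).2.2.1 a hn
  · intro a ha b hb hab
    obtain ⟨n, hn⟩ := mem_iUnion.mp ha
    obtain ⟨m, hm⟩ := mem_iUnion.mp hb
    have h1 : a ∈ (σ (max n m)).1.1 := hmono (le_max_left n m) hn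
    have h2 : b ∈ (σ (max n m)).1.1 := hmono (le_max_right n m) hm
    exact (σ (max n m)).2.2.2.1 a h1 b h2 hab

/-- The dichotomy. -/
theorem core {p pD : V → ℝ} (hp : Sublin p) (hD : Sublin pD) :
    (∃ 𝓢 : Finset (V →ₗ[ℝ] ℝ), (∀ f ∈ 𝓢, ∀ x, f x ≤ p x) ∧
      ∀ x, pD x ≤ 1 → 1 < p x → ∃ f ∈ 𝓢, 1 < f x) ∨
    ∃ A : Set V, A.Infinite ∧ (∀ a ∈ A, pD a ≤ 1 ∧ 1 < p a) ∧
      ∀ a ∈ A, ∀ b ∈ A, a ≠ b → ∃ c ∈ segment ℝ a b, p c ≤ 1 := by
  classical
  choose F hF1 hF2 using fun x : V => hp.exists_support x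
  set E : Set V := {x | Smooth p x ∧ pD x < p x} with hE
  by_cases hfin : (F '' E).Finite
  · -- finitely many smooth support functionals
    by_cases hcov : ∀ x, pD x ≤ 1 → 1 < p x → ∃ f ∈ F '' E, 1 < f x
    · left
      refine ⟨hfin.toFinset, ?_, ?_⟩
      · intro f hf x
        rw [Set.Finite.mem_toFinset] at hf
        obtain ⟨y, -, rfl⟩ := hf
        exact hF1 y x
      · intro x h1 h2
        obtain ⟨f, hf, h3⟩ := hcov x h1 h2
        exact ⟨f, by rw [Set.Finite.mem_toFinset]; exact hf, h3⟩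
    · right
      push Not at hcov
      obtain ⟨x₀, hx1, hx2, hx3⟩ := hcov
      set 𝒲 : Set (Set V) := {W | W.Nonempty ∧ (∀ w ∈ W, ∀ v, ∀ᶠ s : ℝ in 𝓝 0, w + s • v ∈ W) ∧
        ∀ w ∈ W, pD w < p w ∧ ∀ f ∈ F '' E, f w < p w} with h𝒲
      apply exists_infinite hp hD (𝒲 := 𝒲)
      · constructor
        · intro W hW w hw
          exact (hW.2.2 w hw).1
        · rintro W ⟨⟨x, hx⟩, hopen, hW⟩
          -- `x` is not smooth
          have hns : ¬ Smooth p x := by
            intro hs
            have h1 := (hW x hx).2 (F x) ⟨x, ⟨hs, (hW x hx).1⟩, rfl⟩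
            rw [hF2 x] at h1
            exact lt_irrefl _ h1
          unfold Smooth at hns
          push Not at hns
          obtain ⟨v, η, hη, hns⟩ := hns
          have h1 := hopen x hx v
          have h2 := hopen x hx (-v)
          obtain ⟨r, hr, hball⟩ := Metric.eventually_nhds_iff.mp (h1.and h2)
          obtain ⟨s, hs0, hs1, hs2⟩ := hns (r / 2) (by positivity)
          have h3 := hball (y := s) (by
            rw [Real.dist_eq, sub_zero, abs_of_pos hs0]; linarith)
          obtain ⟨hy, hz⟩ := h3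
          rw [smul_neg, ← sub_eq_add_neg] at hz
          set y := x + s • v with hydef
          set z := x - s • v with hzdef
          have hyz : y + z = (2 : ℝ) • x := by
            rw [hydef, hzdef, two_smul]; abel
          have hlt : p (y + z) < p y + p z := by
            rw [hyz, hp.smul 2 (by norm_num)]
            have : 0 < η * s := by positivity
            linarith
          refine ⟨y, hy, ?_⟩
          have hpy : 0 < p y := lt_of_le_of_lt (hD.nonneg y) (hW y hy).1
          have hδ0 : ∀ᶠ δ : ℝ in 𝓝[>] 0, 0 < δ := eventually_mem_nhdsWithin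
          have hδ1 : ∀ᶠ δ : ℝ in 𝓝[>] 0, δ < (p y + p z - p (y + z)) / p y := by
            have : (0:ℝ) < (p y + p z - p (y + z)) / p y := by
              apply div_pos _ hpy; linarith
            exact nhdsWithin_le_nhds (gt_mem_nhds this)
          filter_upwards [hδ0, hδ1] with δ h4 h5
          set a : V := (1 + δ) • ((p y)⁻¹ • y) with ha
          refine ⟨W ∩ {w | Rel p a w}, ⟨⟨z, hz, ?_⟩, ?_, ?_⟩, inter_subset_left, fun w hw => hw.2⟩
          · refine ⟨(p y)⁻¹, by positivity, ?_⟩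
            have h6 : a + (p y)⁻¹ • z = (p y)⁻¹ • (y + z) + (δ * (p y)⁻¹) • y := by
              rw [ha]; module
            rw [h6]
            have h7 := hp.add ((p y)⁻¹ • (y + z)) ((δ * (p y)⁻¹) • y)
            rw [hp.smul _ (by positivity), hp.smul _ (by positivity)] at h7
            rw [lt_div_iff₀ hpy] at h5
            have h8 : (p y)⁻¹ * (p (y + z) + δ * p y) < (p y)⁻¹ * (p y + p z) := by
              apply mul_lt_mul_of_pos_left _ (by positivity)
              linarith
            have h9 : (p y)⁻¹ * (p y + p z) = 1 + (p y)⁻¹ * p z := by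
              field_simp
            calc _ ≤ (p y)⁻¹ * p (y + z) + δ * (p y)⁻¹ * p y := h7
              _ = (p y)⁻¹ * (p (y + z) + δ * p y) := by ring
              _ < _ := h8
              _ = _ := h9
          · rintro w ⟨hw1, t, ht, hw2⟩ v'
            have e1 : Tendsto (fun s : ℝ => p (a + t • (w + s • v'))) (𝓝 0) (𝓝 (p (a + t • w))) := by
              have := hp.tendsto_line (a + t • w) (t • v')
              refine this.congr fun s => ?_
              congr 1
              rw [smul_add, smul_smul, smul_smul, mul_comm s t, add_assoc]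
            have e2 : Tendsto (fun s : ℝ => 1 + t * p (w + s • v')) (𝓝 0) (𝓝 (1 + t * p w)) :=
              ((hp.tendsto_line w v').const_mul t).const_add 1
            have e3 := e1.eventually_lt e2 hw2
            filter_upwards [e3, hopen w hw1 v'] with s h6 h7
            exact ⟨h7, t, ht, h6⟩
          · rintro w ⟨hw1, -⟩
            exact hW w hw1
      · refine ⟨{w | pD w < p w ∧ ∀ f ∈ F '' E, f w < p w}, ⟨x₀, ?_, ?_⟩, ?_, fun w hw => hw⟩
        · linarith
        · intro f hf
          have := hx3 f hf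
          linarith
        · rintro w ⟨hw1, hw2⟩ v
          have e1 := (hD.tendsto_line w v).eventually_lt (hp.tendsto_line w v) hw1
          have e2 : ∀ f ∈ F '' E, ∀ᶠ s : ℝ in 𝓝 0, f (w + s • v) < p (w + s • v) := by
            intro f hf
            have e3 : Tendsto (fun s : ℝ => f (w + s • v)) (𝓝 0) (𝓝 (f w)) := by
              have : Tendsto (fun s : ℝ => f w + s * f v) (𝓝 0) (𝓝 (f w + 0 * f v)) :=
                (by fun_prop : Continuous (fun s : ℝ => f w + s * f v)).tendsto 0
              rw [zero_mul, add_zero] at this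
              refine this.congr fun s => ?_
              rw [map_add, map_smul, smul_eq_mul]
            exact e3.eventually_lt (hp.tendsto_line w v) (hw2 f hf)
          have e4 := (Filter.eventually_all_finite hfin).mpr e2
          filter_upwards [e1, e4] with s h6 h7
          exact ⟨h6, h7⟩
  · -- infinitely many smooth support functionals
    right
    set 𝒲 : Set (Set V) := {W | W ⊆ E ∧ (F '' W).Infinite} with h𝒲
    apply exists_infinite hp hD (𝒲 := 𝒲)
    · constructor
      · intro W hW w hw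
        exact (hW.1 hw).2
      · rintro W ⟨hWE, hinf⟩
        -- two points with distinct functionals
        obtain ⟨f, hf, g, hg, hfg⟩ := hinf.nontrivial
        obtain ⟨y, hy, rfl⟩ := hf
        obtain ⟨y', hy', rfl⟩ := hg
        have hlt := lt_add_of_smooth hp (hWE hy).1 (hWE hy').1 (hF1 y) (hF2 y) (hF1 y') (hF2 y') hfg
        set c : ℝ := (p y + p y' - p (y + y')) / 2 with hc
        have hc0 : 0 < c := by rw [hc]; linarith
        have hsplit : W = {x ∈ W | F x y ≤ p y - c} ∪ {x ∈ W | F x y' ≤ p y' - c} := by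
          ext x
          constructor
          · intro hx
            by_cases h1 : F x y ≤ p y - c
            · exact Or.inl ⟨hx, h1⟩
            · right
              refine ⟨hx, ?_⟩
              have h2 := hF1 x (y + y')
              rw [map_add] at h2
              push Not at h1
              rw [hc] at h1 ⊢
              linarith
          · rintro (h | h)
            · exact h.1
            · exact h.1
        -- one of the halves is infinite
        have key : ∀ z ∈ W, (F '' {x ∈ W | F x z ≤ p z - c}).Infinite → ∃ y ∈ W,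
            ∀ᶠ δ : ℝ in 𝓝[>] 0, ∃ W' ∈ 𝒲, W' ⊆ W ∧
            ∀ w ∈ W', Rel p ((1 + δ) • ((p y)⁻¹ • y)) w := by
          intro z hz hinf'
          refine ⟨z, hz, ?_⟩
          have hpz : 0 < p z := lt_of_le_of_lt (hD.nonneg z) (hWE hz).2
          have hδ0 : ∀ᶠ δ : ℝ in 𝓝[>] 0, 0 < δ := eventually_mem_nhdsWithin
          have hδ1 : ∀ᶠ δ : ℝ in 𝓝[>] 0, (1 + δ) * ((p z)⁻¹ * (p z - c)) < 1 := by
            have h1 : Tendsto (fun δ : ℝ => (1 + δ) * ((p z)⁻¹ * (p z - c))) (𝓝[>] 0)
                (𝓝 ((1 + 0) * ((p z)⁻¹ * (p z - c)))) := by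
              apply Tendsto.mono_left _ nhdsWithin_le_nhds
              exact (by fun_prop : Continuous
                (fun δ : ℝ => (1 + δ) * ((p z)⁻¹ * (p z - c)))).tendsto 0
            apply h1.eventually (gt_mem_nhds _)
            rw [add_zero, one_mul, inv_mul_lt_iff₀ hpz]
            linarith
          filter_upwards [hδ0, hδ1] with δ h4 h5
          refine ⟨{x ∈ W | F x z ≤ p z - c}, ⟨fun x hx => hWE hx.1, hinf'⟩, fun x hx => hx.1, ?_⟩
          rintro w ⟨hw1, hw2⟩
          apply rel_of_smooth hp (hWE hw1).1 (hF1 w) (hF2 w)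
          rw [map_smul, map_smul, smul_eq_mul, smul_eq_mul]
          refine lt_of_le_of_lt ?_ h5
          gcongr
        rw [hsplit, image_union, infinite_union] at hinf
        rcases hinf with h | h
        · exact key y hy h
        · exact key y' hy' h
    · exact ⟨E, subset_rfl, hfin⟩

end Pool.Agent.helper32.Hidden
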