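import Pool.Agent.helper32.Hidden.Core

/-!
# Hidden sets and polyhedric sets: the relative characterization
-/

set_option autoImplicit false

open Set Filter Topology

namespace Pool.Agent.helper32.Hidden

section Defs

variable {X : Type*} [AddCommGroup X] [Module ℝ X]

/-- `C` hides `A`: for every two distinct points `a, b` of `A` the segment `conv {a, b}` meets
`C`. -/
def Hides (C A : Set X) : Prop :=
  ∀ a ∈ A, ∀ b ∈ A, a ≠ b → (convexHull ℝ {a, b} ∩ C).Nonempty

/-- `C` is polyhedric in `D'`: it is the intersection of finitely many (at least one) convex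
subsets of `D'` whose complements in `D'` are convex. -/
def PolyhedricIn (C D' : Set X) : Prop :=
  ∃ n : ℕ, ∃ H : Fin (n + 1) → Set X,
    (∀ i, H i ⊆ D' ∧ Convex ℝ (H i) ∧ Convex ℝ (D' \ H i)) ∧ C = ⋂ i, H i

end Defs

section Algebra

variable {X : Type*} [AddCommGroup X] [Module ℝ X]

/-- `n` sets whose convex hulls miss `C` cover `S`. -/
def Colorable (C : Set X) (n : ℕ) (S : Set X) : Prop :=
  ∃ col : X → Fin n, ∀ i, Disjoint (convexHull ℝ {x | x ∈ S ∧ col x = i}) C

lemma Colorable.mono {C S T : Set X} {n : ℕ} (h : Colorable C n T) (hST : S ⊆ T) :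
    Colorable C n S := by
  obtain ⟨col, hcol⟩ := h
  refine ⟨col, fun i => (hcol i).mono_left (convexHull_mono ?_)⟩
  rintro x ⟨hx, hxi⟩
  exact ⟨hST hx, hxi⟩

/-- Compactness. -/
lemma colorable_of_finite {C S : Set X} {n : ℕ}
    (h : ∀ F : Finset X, (F : Set X) ⊆ S → Colorable C n F) : Colorable C n S := by
  classical
  haveI : Nonempty (X → Fin n) := ⟨(h ∅ (by simp)).choose⟩
  choose! g hg using h
  obtain ⟨χ, hχ⟩ := Finset.rado_selection (β := fun _ : X => Fin n)
    (fun s => g (s.filter (· ∈ S)))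
  refine ⟨χ, fun i => ?_⟩
  rw [Set.disjoint_left]
  intro x hx hxC
  rw [convexHull_eq_union_convexHull_finite_subsets] at hx
  simp only [mem_iUnion] at hx
  obtain ⟨s, hs, hxs⟩ := hx
  obtain ⟨t, hst, ht⟩ := hχ s
  have hF : ((t.filter (· ∈ S) : Finset X) : Set X) ⊆ S := by
    intro y hy
    simp only [Finset.coe_filter, mem_ofPred_eq] at hy
    exact hy.2
  have h1 := hg _ hF i
  rw [Set.disjoint_left] at h1
  refine h1 (convexHull_mono ?_ hxs) hxC
  intro y hy
  obtain ⟨hyS, hyi⟩ := hs hy
  refine ⟨?_, ?_⟩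
  · simp only [Finset.coe_filter, mem_ofPred_eq]
    exact ⟨hst hy, hyS⟩
  · rw [← ht y hy]; exact hyi

lemma colorable_of_cover {C S : Set X} {n : ℕ} (U : Fin n → Set X) (hU : ∀ i, Convex ℝ (U i))
    (hdisj : ∀ i, Disjoint (U i) C) (hcov : ∀ x ∈ S, ∃ i, x ∈ U i) : Colorable C (n + 1) S := by
  classical
  refine ⟨fun x => if h : ∃ i, x ∈ U i then h.choose.castSucc else Fin.last n, fun i => ?_⟩
  refine Fin.lastCases ?_ (fun j => ?_) i
  · have : {x | x ∈ S ∧ (if h : ∃ i, x ∈ U i then h.choose.castSucc else Fin.last n) = Fin.last n}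
        = ∅ := by
      rw [Set.eq_empty_iff_forall_notMem]
      rintro x ⟨hx, h⟩
      rw [dif_pos (hcov x hx)] at h
      exact (Fin.castSucc_lt_last _).ne h
    rw [this]
    simp
  · apply Disjoint.mono_left _ (hdisj j)
    apply convexHull_min _ (hU j)
    rintro x ⟨hx, h⟩
    have hex := hcov x hx
    have h' : (if h : ∃ i, x ∈ U i then h.choose.castSucc else Fin.last n) = j.castSucc := h
    rw [dif_pos hex] at h'
    have h2 := Fin.castSucc_injective n h'
    rw [← h2]
    exact hex.choose_spec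

/-- Stone separation turns a colouring into a polyhedric representation. -/
lemma polyhedricIn_of_colorable {C D' : Set X} (hC : Convex ℝ C) (hD' : Convex ℝ D')
    (hCD : C ⊆ D') {n : ℕ} (h : Colorable C n (D' \ C)) : PolyhedricIn C D' := by
  obtain ⟨col, hcol⟩ := h
  have hn : n ≠ 0 := by
    rintro rfl
    exact (col 0).elim0
  obtain ⟨m, rfl⟩ := Nat.exists_eq_succ_of_ne_zero hn
  choose U hU1 hU2 hU3 hU4 using fun i =>
    exists_convex_convex_compl_subset (𝕜 := ℝ) (convex_convexHull ℝ _) hC (hcol i)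
  refine ⟨m, fun i => D' \ U i, fun i => ⟨Set.sdiff_subset, ?_, ?_⟩, ?_⟩
  · change Convex ℝ (D' \ U i)
    rw [Set.sdiff_eq]
    exact hD'.inter (hU2 i)
  · have : D' \ (D' \ U i) = D' ∩ U i := by
      ext x
      simp only [Set.mem_sdiff, mem_inter_iff]
      tauto
    rw [this]
    exact hD'.inter (hU1 i)
  · ext x
    simp only [mem_iInter, Set.mem_sdiff]
    constructor
    · intro hx i
      exact ⟨hCD hx, hU4 i hx⟩
    · intro hx
      by_contra hxC
      exact (hx (col x)).2 (hU3 (col x) (subset_convexHull ℝ _ ⟨⟨(hx (col x)).1, hxC⟩, rfl⟩))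

/-- The easy implication. -/
lemma not_hides_of_polyhedricIn {C D : Set X} (hne : C.Nonempty)
    (h : PolyhedricIn C (D ∩ affineSpan ℝ C)) (A : Set X) (hA : A ⊆ D \ C) (hinf : A.Infinite) :
    ¬ Hides C A := by
  classical
  intro hh
  obtain ⟨n, H, hH, hCH⟩ := h
  -- the points of `A` in the affine hull
  have h1 : (A ∩ affineSpan ℝ C).Finite := by
    have hex : ∀ x ∈ A ∩ affineSpan ℝ C, ∃ i, x ∉ H i := by
      rintro x ⟨hx, hxa⟩
      by_contra hcon
      push Not at hcon
      apply (hA hx).2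
      rw [hCH]
      exact mem_iInter.mpr hcon
    choose! f hf using hex
    apply Set.Finite.of_injOn (f := f) (t := univ) (fun _ _ => mem_univ _) _ finite_univ
    intro x hx y hy hxy
    by_contra hne'
    obtain ⟨z, hz, hzC⟩ := hh x hx.1 y hy.1 hne'
    rw [convexHull_pair] at hz
    have hx' : x ∈ (D ∩ affineSpan ℝ C) \ H (f x) := ⟨⟨(hA hx.1).1, hx.2⟩, hf x hx⟩
    have hy' : y ∈ (D ∩ affineSpan ℝ C) \ H (f x) := ⟨⟨(hA hy.1).1, hy.2⟩, by
      rw [hxy]; exact hf y hy⟩
    have hz' := (hH (f x)).2.2.segment_subset hx' hy' hz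
    apply hz'.2
    rw [hCH] at hzC
    exact mem_iInter.mp hzC _
  -- the points of `A` outside
  have h2 : (A \ affineSpan ℝ C).Finite := by
    by_contra hcon
    obtain ⟨t, hts, htc⟩ := (Set.Infinite.exists_subset_card_eq hcon 3)
    rw [Finset.card_eq_three] at htc
    obtain ⟨a, b, d, hab, had, hbd, rfl⟩ := htc
    have ha := hts (show a ∈ (({a, b, d} : Finset X) : Set X) by simp)
    have hb := hts (show b ∈ (({a, b, d} : Finset X) : Set X) by simp)
    have hd := hts (show d ∈ (({a, b, d} : Finset X) : Set X) by simp)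
    obtain ⟨c₀, hc₀⟩ := hne
    set W := (affineSpan ℝ C).direction with hW
    have hc₀' : c₀ ∈ affineSpan ℝ C := subset_affineSpan ℝ C hc₀
    have hmem : ∀ x, x ∈ affineSpan ℝ C ↔ W.mkQ (x - c₀) = 0 := by
      intro x
      rw [Submodule.mkQ_apply, Submodule.Quotient.mk_eq_zero, hW,
        ← vsub_eq_sub, AffineSubspace.vsub_right_mem_direction_iff_mem hc₀']
    have hseg : ∀ x y, x ∈ A \ affineSpan ℝ C → y ∈ A \ affineSpan ℝ C → x ≠ y →
        ∃ s : ℝ, 0 < s ∧ W.mkQ (y - c₀) = (-s) • W.mkQ (x - c₀) := by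
      intro x y hx hy hxy
      obtain ⟨z, hz, hzC⟩ := hh x hx.1 y hy.1 hxy
      rw [convexHull_pair] at hz
      obtain ⟨u, v, hu, hv, huv, rfl⟩ := hz
      have hz2 := (hmem _).mp (subset_affineSpan ℝ C hzC)
      have h3 : u • x + v • y - c₀ = u • (x - c₀) + v • (y - c₀) := by
        have : c₀ = (u + v) • c₀ := by rw [huv, one_smul]
        conv_lhs => rw [this]
        module
      rw [h3, map_add, map_smul, map_smul] at hz2
      have hv0 : v ≠ 0 := by
        rintro rfl
        rw [zero_smul, add_zero] at hz2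
        have hu1 : u = 1 := by linarith
        rw [hu1, one_smul] at hz2
        exact hx.2 ((hmem x).mpr hz2)
      have hu0 : u ≠ 0 := by
        rintro rfl
        rw [zero_smul, zero_add] at hz2
        have hv1 : v = 1 := by linarith
        rw [hv1, one_smul] at hz2
        exact hy.2 ((hmem y).mpr hz2)
      have hupos : 0 < u := lt_of_le_of_ne hu (Ne.symm hu0)
      have hvpos : 0 < v := lt_of_le_of_ne hv (Ne.symm hv0)
      refine ⟨u / v, by positivity, ?_⟩
      have h4 : v • W.mkQ (y - c₀) = -(u • W.mkQ (x - c₀)) := by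
        rw [eq_neg_iff_add_eq_zero, add_comm]; exact hz2
      have h5 : W.mkQ (y - c₀) = v⁻¹ • (v • W.mkQ (y - c₀)) := by
        rw [smul_smul, inv_mul_cancel₀ hv0, one_smul]
      rw [h5, h4, smul_neg, smul_smul, neg_smul]
      congr 2
      rw [div_eq_inv_mul]
    obtain ⟨s, hs, e1⟩ := hseg a b ha hb hab
    obtain ⟨t, ht, e2⟩ := hseg a d ha hd had
    obtain ⟨r, hr, e3⟩ := hseg b d hb hd hbd
    rw [e1, smul_smul] at e3
    rw [e2] at e3
    have h6 : (r * s + t) • W.mkQ (a - c₀) = 0 := by
      have : (r * s + t) • W.mkQ (a - c₀) = (-r * -s) • W.mkQ (a - c₀) - (-t) • W.mkQ (a - c₀) := by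
        module
      rw [this, ← e3, sub_self]
    rcases smul_eq_zero.mp h6 with h7 | h7
    · have : 0 < r * s + t := by positivity
      linarith
    · exact ha.2 ((hmem a).mpr h7)
  apply hinf
  have : A = (A ∩ affineSpan ℝ C) ∪ (A \ affineSpan ℝ C) := by
    rw [inter_union_sdiff]
  rw [this]
  exact h1.union h2

/-- The subspace of directions in which `C` contains a neighbourhood of `c`. -/
def dirSub (C : Set X) (hC : Convex ℝ C) (c : X) (hc : c ∈ C) : Submodule ℝ X where
  carrier := {v | ∃ ε > 0, c + (ε : ℝ) • v ∈ C ∧ c - (ε : ℝ) • v ∈ C}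
  zero_mem' := ⟨1, one_pos, by simpa using hc, by simpa using hc⟩
  add_mem' := by
    rintro v w ⟨ε, hε, h1, h2⟩ ⟨ε', hε', h3, h4⟩
    refine ⟨ε * ε' / (ε + ε'), by positivity, ?_, ?_⟩
    · have := hC h1 h3 (a := ε' / (ε + ε')) (b := ε / (ε + ε')) (by positivity) (by positivity)
        (by field_simp; ring)
      convert this using 1
      match_scalars <;> field_simp <;> ring
    · have := hC h2 h4 (a := ε' / (ε + ε')) (b := ε / (ε + ε')) (by positivity) (by positivity)
        (by field_simp; ring)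
      convert this using 1
      match_scalars <;> field_simp <;> ring
  smul_mem' := by
    rintro r v ⟨ε, hε, h1, h2⟩
    rcases lt_trichotomy r 0 with hr | hr | hr
    · refine ⟨ε / (-r), div_pos hε (by linarith), ?_, ?_⟩
      · rw [smul_smul, div_mul_eq_mul_div, mul_div_assoc, div_neg, div_self hr.ne, mul_neg, mul_one,
          neg_smul, ← sub_eq_add_neg]
        exact h2
      · rw [smul_smul, div_mul_eq_mul_div, mul_div_assoc, div_neg, div_self hr.ne, mul_neg, mul_one,
          neg_smul, sub_neg_eq_add]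
        exact h1
    · exact ⟨1, one_pos, by simpa [hr] using hc, by simpa [hr] using hc⟩
    · refine ⟨ε / r, by positivity, ?_, ?_⟩
      · rw [smul_smul, div_mul_cancel₀ _ hr.ne']; exact h1
      · rw [smul_smul, div_mul_cancel₀ _ hr.ne']; exact h2

lemma mem_dirSub {C : Set X} {hC : Convex ℝ C} {c : X} {hc : c ∈ C} {v : X} :
    v ∈ dirSub C hC c hc ↔ ∃ ε > 0, c + (ε : ℝ) • v ∈ C ∧ c - (ε : ℝ) • v ∈ C := Iff.rfl

end Algebra

section Weights

variable {X : Type*} [AddCommGroup X] [Module ℝ X]

/-- weights -/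
def Wt (C : Set X) (e : X) (w : ℝ) (x : X) : Prop := (1 - w)⁻¹ • (x - w • e) ∈ C

lemma Wt.mono {C : Set X} (hC : Convex ℝ C) {e : X} (he : e ∈ C) {w w' : ℝ} (h1 : w' ≤ w)
    (h2 : w < 1) {x : X} (h : Wt C e w x) : Wt C e w' x := by
  unfold Wt at h ⊢
  have h3 : 0 < 1 - w := by linarith
  have h4 : 0 < 1 - w' := by linarith
  have := hC h he (a := (1 - w) / (1 - w')) (b := (w - w') / (1 - w')) (by positivity)
    (div_nonneg (by linarith) h4.le) (by field_simp; ring)
  convert this using 1
  match_scalars <;> field_simp <;> ring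

lemma Wt.step {C : Set X} (hC : Convex ℝ C) {e e' : X} (he' : e' ∈ C) {w l : ℝ}
    (hw0 : 0 ≤ w) (h2 : w < 1) (hl0 : 0 ≤ l) (hl1 : l ≤ 1) {x : X} (h : Wt C e w x) :
    Wt C e ((1 - l) * w) ((1 - l) • x + l • e') := by
  unfold Wt at h ⊢
  have h3 : 0 < 1 - w := by linarith
  have h4 : 0 < 1 - (1 - l) * w := by nlinarith
  have := hC h he' (a := (1 - l) * (1 - w) / (1 - (1 - l) * w)) (b := l / (1 - (1 - l) * w))
    (div_nonneg (mul_nonneg (by linarith) h3.le) h4.le) (div_nonneg hl0 h4.le)
    (by field_simp; ring)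
  convert this using 1
  match_scalars <;> field_simp

lemma Wt.sub_mem_dirSub {C : Set X} (hC : Convex ℝ C) {c e : X} (hc : c ∈ C) (he : e ∈ C) {w : ℝ}
    (hw0 : 0 < w) (hw1 : w < 1) (h : Wt C e w c) : e - c ∈ dirSub C hC c hc := by
  rw [mem_dirSub]
  have h3 : 0 < 1 - w := by linarith
  refine ⟨w, hw0, ?_, ?_⟩
  · have := hC hc he (a := 1 - w) (b := w) h3.le hw0.le (by ring)
    convert this using 1
    module
  · -- convex combination of `c` and the point given by `h`
    unfold Wt at h
    have := hC hc h (a := w) (b := 1 - w) hw0.le h3.le (by ring)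
    convert this using 1
    match_scalars <;> field_simp
    ring

end Weights

section Topology

variable {X : Type*} [AddCommGroup X] [Module ℝ X] [TopologicalSpace X] [IsTopologicalAddGroup X]
  [ContinuousSMul ℝ X]

/-- A point that is a proper convex combination of each of countably many given points of `C` with
some other point of `C`. -/
lemma exists_point [TopologicalSpace.IsCompletelyMetrizableSpace X] {C : Set X}
    (hCc : IsClosed C) (hC : Convex ℝ C) (e : ℕ → X) (he : ∀ n, e n ∈ C) :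
    ∃ c ∈ C, ∀ n, ∃ w : ℝ, 0 < w ∧ w < 1 ∧ Wt C (e n) w c := by
  let _ := TopologicalSpace.upgradeIsCompletelyMetrizable X
  -- small steps
  have hl : ∀ (n : ℕ) (x : X), ∃ l : ℝ, 0 < l ∧ l ≤ (1 / 2) ^ (n + 2) ∧
      dist x ((1 - l) • x + l • e (n + 1)) ≤ 1 * (1 / 2) ^ n := by
    intro n x
    have h1 : Tendsto (fun l : ℝ => dist x ((1 - l) • x + l • e (n + 1))) (𝓝[>] 0) (𝓝 0) := by
      have h2 : Continuous (fun l : ℝ => dist x ((1 - l) • x + l • e (n + 1))) := by fun_prop
      have h3 := h2.tendsto 0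
      simp only [sub_zero, one_smul, zero_smul, add_zero, dist_self] at h3
      exact h3.mono_left nhdsWithin_le_nhds
    have h2 : ∀ᶠ l : ℝ in 𝓝[>] 0, dist x ((1 - l) • x + l • e (n + 1)) < (1 / 2) ^ n :=
      h1.eventually (gt_mem_nhds (by positivity))
    have h3 : ∀ᶠ l : ℝ in 𝓝[>] 0, 0 < l := eventually_mem_nhdsWithin
    have h4 : ∀ᶠ l : ℝ in 𝓝[>] 0, l < (1 / 2) ^ (n + 2) :=
      nhdsWithin_le_nhds (gt_mem_nhds (by positivity))
    obtain ⟨l, ⟨h5, h6⟩, h7⟩ := ((h2.and h3).and h4).exists
    exact ⟨l, h6, h7.le, by rw [one_mul]; exact h5.le⟩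
  choose l hl0 hl1 hl2 using hl
  let s : ℕ → X := fun n => Nat.rec (e 0) (fun n x => (1 - l n x) • x + l n x • e (n + 1)) n
  have hs0 : s 0 = e 0 := rfl
  have hs1 : ∀ n, s (n + 1) = (1 - l n (s n)) • s n + l n (s n) • e (n + 1) := fun n => rfl
  have hle1 : ∀ n x, l n x ≤ 1 := fun n x =>
    (hl1 n x).trans (pow_le_one₀ (by norm_num) (by norm_num))
  have hle4 : ∀ n x, l n x ≤ 1 / 4 := fun n x => by
    refine (hl1 n x).trans ?_
    rw [pow_add]
    have : ((1:ℝ) / 2) ^ n ≤ 1 := pow_le_one₀ (by norm_num) (by norm_num)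
    nlinarith
  have hsC : ∀ n, s n ∈ C := by
    intro n
    induction n with
    | zero => exact he 0
    | succ n ih =>
      rw [hs1]
      exact hC ih (he _) (by linarith [hle1 n (s n)]) (hl0 _ _).le (by ring)
  have hcauchy : CauchySeq s := by
    apply cauchySeq_of_le_geometric (1 / 2) 1 (by norm_num)
    intro n
    rw [hs1]
    exact hl2 n (s n)
  obtain ⟨c, hc⟩ := cauchySeq_tendsto_of_complete hcauchy
  refine ⟨c, hCc.mem_of_tendsto hc (Eventually.of_forall hsC), ?_⟩
  intro n
  -- the initial weight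
  have hμ : ∃ μ : ℝ, 0 < μ ∧ μ ≤ 1 / 2 ∧ Wt C (e n) μ (s n) := by
    cases n with
    | zero =>
      refine ⟨1 / 2, by norm_num, le_rfl, ?_⟩
      unfold Wt
      rw [hs0]
      convert he 0 using 1
      match_scalars
      norm_num
    | succ n =>
      refine ⟨l n (s n), hl0 _ _, (hle4 n (s n)).trans (by norm_num), ?_⟩
      unfold Wt
      rw [hs1]
      convert hsC n using 1
      have : 1 - l n (s n) ≠ 0 := by
        have := hle4 n (s n); linarith
      match_scalars <;> field_simp
      ring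
  obtain ⟨μ, hμ0, hμ1, hμ2⟩ := hμ
  have hind : ∀ k : ℕ, Wt C (e n) (μ * (1 / 2 + (1 / 2) ^ (k + 1))) (s (n + k)) := by
    intro k
    induction k with
    | zero =>
      have : μ * (1 / 2 + (1 / 2) ^ (0 + 1)) = μ := by norm_num
      rw [this]
      exact hμ2
    | succ k ih =>
      have hpk : ((1:ℝ) / 2) ^ (k + 1) ≤ 1 := pow_le_one₀ (by norm_num) (by norm_num)
      have hpk2 : ((1:ℝ) / 2) ^ (k + 1) ≤ 1 / 2 := by
        rw [pow_succ]
        have : ((1:ℝ) / 2) ^ k ≤ 1 := pow_le_one₀ (by norm_num) (by norm_num)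
        linarith
      have hpk0 : 0 < ((1:ℝ) / 2) ^ (k + 1) := by positivity
      have hw1 : μ * (1 / 2 + (1 / 2) ^ (k + 1)) < 1 := by nlinarith
      have hw0 : 0 ≤ μ * (1 / 2 + (1 / 2) ^ (k + 1)) := by positivity
      have h1 := ih.step hC (he (n + k + 1)) hw0 hw1 (hl0 (n + k) (s (n + k))).le
        (hle1 (n + k) (s (n + k)))
      rw [← hs1] at h1
      have hlb : l (n + k) (s (n + k)) ≤ (1 / 2) ^ (k + 2) := by
        refine (hl1 _ _).trans ?_
        exact pow_le_pow_of_le_one (by norm_num) (by norm_num) (by omega)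
      refine h1.mono hC (he n) ?_ ?_
      · have h5 : ((1:ℝ) / 2) ^ (k + 1 + 1) = (1 / 2) ^ (k + 1) / 2 := by rw [pow_succ]; ring
        have h6 : ((1:ℝ) / 2) ^ (k + 2) = (1 / 2) ^ (k + 1) / 2 := by rw [pow_succ]; ring
        rw [h5]
        rw [h6] at hlb
        have h7 := (hl0 (n + k) (s (n + k))).le
        have h8 : l (n + k) (s (n + k)) * (1 / 2 + (1 / 2) ^ (k + 1)) ≤ (1 / 2) ^ (k + 1) / 2 := by
          calc l (n + k) (s (n + k)) * (1 / 2 + (1 / 2) ^ (k + 1))
              ≤ l (n + k) (s (n + k)) * 1 := by gcongr; linarith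
            _ ≤ _ := by rw [mul_one]; exact hlb
        nlinarith
      · have := (hl0 (n + k) (s (n + k))).le
        nlinarith
  refine ⟨μ / 2, by positivity, by linarith, ?_⟩
  have hclosed : IsClosed {x | Wt C (e n) (μ / 2) x} := by
    unfold Wt
    apply hCc.preimage
    fun_prop
  have hlim : Tendsto (fun k => s (n + k)) atTop (𝓝 c) := by
    have := (tendsto_add_atTop_iff_nat n).mpr hc
    refine this.congr fun k => ?_
    rw [add_comm]
  refine hclosed.mem_of_tendsto hlim (Eventually.of_forall fun k => ?_)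
  have hpk0 : 0 < ((1:ℝ) / 2) ^ (k + 1) := by positivity
  have hpk2 : ((1:ℝ) / 2) ^ (k + 1) ≤ 1 / 2 := by
    rw [pow_succ]
    have : ((1:ℝ) / 2) ^ k ≤ 1 := pow_le_one₀ (by norm_num) (by norm_num)
    linarith
  exact (hind k).mono hC (he n) (by nlinarith) (by nlinarith)

/-- The main construction. -/
theorem polyhedricIn_of_not_hides [TopologicalSpace.IsCompletelyMetrizableSpace X] {C D : Set X}
    (hCc : IsClosed C) (hDc : IsClosed D) (hC : Convex ℝ C) (hD : Convex ℝ D) (hCD : C ⊆ D)
    (hne : C.Nonempty) (h : ∀ A ⊆ D \ C, A.Infinite → ¬ Hides C A) :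
    PolyhedricIn C (D ∩ affineSpan ℝ C) := by
  classical
  set D' : Set X := D ∩ affineSpan ℝ C with hD'
  by_cases hcol : ∃ n, Colorable C n (D' \ C)
  · obtain ⟨n, hn⟩ := hcol
    exact polyhedricIn_of_colorable hC (hD.inter (affineSpan ℝ C).convex)
      (fun x hx => ⟨hCD hx, subset_affineSpan ℝ C hx⟩) hn
  · exfalso
    push Not at hcol
    -- a countable subset that is not colourable
    have h1 : ∀ n, ∃ F : Finset X, (F : Set X) ⊆ D' \ C ∧ ¬ Colorable C n F := by
      intro n
      by_contra hcon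
      push Not at hcon
      exact hcol n (colorable_of_finite hcon)
    choose F hF1 hF2 using h1
    set S : Set X := ⋃ n, (F n : Set X) with hS
    have hScount : S.Countable := countable_iUnion fun n => (F n).finite_toSet.countable
    have hSsub : S ⊆ D' \ C := iUnion_subset hF1
    have hSnot : ∀ n, ¬ Colorable C n S := fun n hn => hF2 n (hn.mono (subset_iUnion (fun n => (F n : Set X)) n))
    obtain ⟨c₁, hc₁⟩ := hne
    -- finitely many points of `C` generating each point of `S`
    have h2 : ∀ f ∈ S, ∃ T : Finset X, (T : Set X) ⊆ (· - c₁) '' C ∧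
        f - c₁ ∈ Submodule.span ℝ (T : Set X) := by
      intro f hf
      have h3 : f ∈ affineSpan ℝ C := (hSsub hf).1.2
      have h4 : f - c₁ ∈ vectorSpan ℝ C := by
        rw [← direction_affineSpan, ← vsub_eq_sub]
        exact AffineSubspace.vsub_mem_direction h3 (subset_affineSpan ℝ C hc₁)
      rw [vectorSpan_eq_span_vsub_set_right ℝ hc₁] at h4
      obtain ⟨T, hT1, hT2⟩ := Submodule.mem_span_finite_of_mem_span h4
      exact ⟨T, hT1, hT2⟩
    choose! T hT1 hT2 using h2
    set E : Set X := insert c₁ (⋃ f ∈ S, (· + c₁) '' (T f : Set X)) with hE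
    have hEcount : E.Countable := by
      apply Set.Countable.insert
      apply hScount.biUnion
      intro f _
      exact ((T f).finite_toSet.image _).countable
    have hEC : E ⊆ C := by
      rintro x (rfl | hx)
      · exact hc₁
      · simp only [mem_iUnion] at hx
        obtain ⟨f, hf, y, hy, rfl⟩ := hx
        obtain ⟨z, hz, hzy⟩ := hT1 f hf hy
        simp only at hzy ⊢
        rw [← hzy, sub_add_cancel]
        exact hz
    obtain ⟨e, he⟩ := hEcount.exists_eq_range ⟨c₁, mem_insert _ _⟩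
    have heC : ∀ n, e n ∈ C := fun n => hEC (by rw [he]; exact mem_range_self n)
    obtain ⟨c, hc, hcw⟩ := exists_point hCc hC e heC
    set V := dirSub C hC c hc with hV
    have heV : ∀ x ∈ E, x - c ∈ V := by
      intro x hx
      rw [he] at hx
      obtain ⟨n, rfl⟩ := hx
      obtain ⟨w, hw0, hw1, hw⟩ := hcw n
      exact hw.sub_mem_dirSub hC hc (heC n) hw0 hw1
    have hc1V : c₁ - c ∈ V := heV c₁ (mem_insert _ _)
    have hSV : ∀ f ∈ S, f - c ∈ V := by
      intro f hf
      have h5 : Submodule.span ℝ (T f : Set X) ≤ V := by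
        rw [Submodule.span_le]
        intro y hy
        have h6 : y + c₁ ∈ E := by
          right
          simp only [mem_iUnion]
          exact ⟨f, hf, y, hy, rfl⟩
        have h7 := heV _ h6
        have h8 : y = (y + c₁ - c) - (c₁ - c) := by abel
        rw [h8]
        exact V.sub_mem h7 hc1V
      have h9 : f - c = (f - c₁) + (c₁ - c) := by abel
      rw [h9]
      exact V.add_mem (h5 (hT2 f hf)) hc1V
    -- the gauges
    set K : Set V := {v | c + (v : X) ∈ C} with hK
    set L : Set V := {v | c + (v : X) ∈ D} with hL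
    have hKL : K ⊆ L := fun v hv => hCD hv
    have hconv : ∀ {Z : Set X}, Convex ℝ Z → Convex ℝ {v : V | c + (v : X) ∈ Z} := by
      intro Z hZ
      have : {v : V | c + (v : X) ∈ Z} = (fun v : V => c + V.subtype v) ⁻¹' Z := rfl
      rw [this]
      intro a ha b hb s t hs ht hst
      have h3 := hZ ha hb hs ht hst
      simp only [mem_preimage, map_add, map_smul] at h3 ⊢
      convert h3 using 1
      rw [smul_add, smul_add]
      have : c = s • c + t • c := by rw [← add_smul, hst, one_smul]
      conv_lhs => rw [this]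
      abel
    have hKconv : Convex ℝ K := hconv hC
    have hLconv : Convex ℝ L := hconv hD
    have hKabs : Absorbent ℝ K := by
      intro v
      rw [absorbs_iff_norm]
      obtain ⟨ε, hε, h3, h4⟩ := mem_dirSub.mp v.2
      refine ⟨1 / ε, fun r hr => ?_⟩
      rw [singleton_subset_iff]
      have hr0 : r ≠ 0 := by
        rintro rfl
        rw [norm_zero] at hr
        have : 0 < 1 / ε := by positivity
        linarith
      rw [mem_smul_set_iff_inv_smul_mem₀ hr0]
      change c + ((r⁻¹ • v : V) : X) ∈ C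
      rw [Submodule.coe_smul]
      have h5 : |r⁻¹| ≤ ε := by
        rw [abs_inv]
        rw [Real.norm_eq_abs] at hr
        rw [inv_le_comm₀ (by positivity) hε, ← one_div]
        exact hr
      -- `c + r⁻¹ v` is between `c - ε v` and `c + ε v`
      have h6 := hC h3 h4 (a := (1 + r⁻¹ / ε) / 2) (b := (1 - r⁻¹ / ε) / 2) (by
          have := (abs_le.mp h5).1
          have : -1 ≤ r⁻¹ / ε := by rw [le_div_iff₀ hε]; linarith
          linarith) (by
          have := (abs_le.mp h5).2
          have : r⁻¹ / ε ≤ 1 := by rw [div_le_iff₀ hε]; linarith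
          linarith) (by ring)
      convert h6 using 1
      match_scalars <;> field_simp <;> ring
    have hLabs : Absorbent ℝ L := hKabs.mono hKL
    have h0K : (0 : V) ∈ K := by
      change c + ((0 : V) : X) ∈ C
      simpa using hc
    have hsub : ∀ {Z : Set V}, Convex ℝ Z → Absorbent ℝ Z → Sublin (gauge Z) := by
      intro Z hZ1 hZ2
      exact ⟨gauge_add_le hZ1 hZ2, fun r hr x => by rw [gauge_smul_of_nonneg hr, smul_eq_mul],
        gauge_nonneg⟩
    have hmem : ∀ {Z : Set X}, IsClosed Z → Convex ℝ {v : V | c + (v : X) ∈ Z} →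
        Absorbent ℝ {v : V | c + (v : X) ∈ Z} → (0 : V) ∈ {v : V | c + (v : X) ∈ Z} →
        ∀ v : V, gauge {v : V | c + (v : X) ∈ Z} v ≤ 1 → c + (v : X) ∈ Z := by
      intro Z hZ1 hZ2 hZ3 hZ4 v hv
      have hlim : Tendsto (fun t : ℝ => c + t • (v : X)) (𝓝[<] 1) (𝓝 (c + (v : X))) := by
        have h3 : Continuous (fun t : ℝ => c + t • (v : X)) := by fun_prop
        have h4 := h3.tendsto 1
        rw [one_smul] at h4
        exact h4.mono_left nhdsWithin_le_nhds
      refine hZ1.mem_of_tendsto hlim ?_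
      have h5 : ∀ᶠ t : ℝ in 𝓝[<] 1, t ∈ Ioo (0:ℝ) 1 := Ioo_mem_nhdsLT (by norm_num)
      filter_upwards [h5] with t ht
      have h6 : gauge {v : V | c + (v : X) ∈ Z} (t • v) < 1 := by
        rw [gauge_smul_of_nonneg ht.1.le, smul_eq_mul]
        nlinarith [ht.1, ht.2, gauge_nonneg (s := {v : V | c + (v : X) ∈ Z}) v]
      exact setOfPred_gauge_lt_one_subset_self hZ2 hZ4 hZ3 h6
    have hKmem := hmem hCc hKconv hKabs h0K
    have hLmem := hmem hDc hLconv hLabs (hKL h0K)
    rcases core (hsub hKconv hKabs) (hsub hLconv hLabs) with ⟨𝓢, h𝓢1, h𝓢2⟩ | ⟨A, hA1, hA2, hA3⟩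
    · -- finitely many functionals: then `S` is colourable
      apply hSnot (𝓢.card + 1)
      refine colorable_of_cover (fun i => {x | ∃ hx : x - c ∈ V, 1 < (𝓢.equivFin.symm i : V →ₗ[ℝ] ℝ)
        ⟨x - c, hx⟩}) ?_ ?_ ?_
      · rintro i x ⟨hx, hx1⟩ y ⟨hy, hy1⟩ a b ha hb hab
        have h3 : a • x + b • y - c = a • (x - c) + b • (y - c) := by
          have : c = (a + b) • c := by rw [hab, one_smul]
          conv_lhs => rw [this]
          module
        have h4 : a • x + b • y - c ∈ V := by
          rw [h3]; exact V.add_mem (V.smul_mem _ hx) (V.smul_mem _ hy)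
        refine ⟨h4, ?_⟩
        have h5 : (⟨a • x + b • y - c, h4⟩ : V) = a • ⟨x - c, hx⟩ + b • ⟨y - c, hy⟩ := by
          apply Subtype.ext
          simpa using h3
        rw [h5, map_add, map_smul, map_smul, smul_eq_mul, smul_eq_mul]
        rcases eq_or_lt_of_le ha with ha0 | ha0
        · have : b = 1 := by linarith
          rw [← ha0, this]
          linarith
        · nlinarith
      · intro i
        rw [Set.disjoint_left]
        rintro x ⟨hx, hx1⟩ hxC
        have h3 : (⟨x - c, hx⟩ : V) ∈ K := by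
          change c + (x - c) ∈ C
          rwa [add_sub_cancel]
        have h4 := gauge_le_one_of_mem h3
        have h5 := h𝓢1 _ (𝓢.equivFin.symm i).2 ⟨x - c, hx⟩
        linarith
      · intro x hx
        have hxV := hSV x hx
        have h3 : gauge L ⟨x - c, hxV⟩ ≤ 1 := by
          apply gauge_le_one_of_mem
          change c + (x - c) ∈ D
          rw [add_sub_cancel]
          exact (hSsub hx).1.1
        have h4 : 1 < gauge K ⟨x - c, hxV⟩ := by
          by_contra hcon
          push Not at hcon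
          have := hKmem _ hcon
          simp only [add_sub_cancel] at this
          exact (hSsub hx).2 this
        obtain ⟨f, hf, hf1⟩ := h𝓢2 _ h3 h4
        refine ⟨𝓢.equivFin ⟨f, hf⟩, hxV, ?_⟩
        rw [Equiv.symm_apply_apply]
        exact hf1
    · -- an infinite hidden set
      refine h ((fun v : V => c + (v : X)) '' A) ?_ ?_ ?_
      · rintro _ ⟨v, hv, rfl⟩
        refine ⟨hLmem v (hA2 v hv).1, fun hvC => ?_⟩
        have := gauge_le_one_of_mem (s := K) (x := v) hvC
        linarith [(hA2 v hv).2]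
      · apply hA1.image
        intro v _ w _ hvw
        exact Subtype.ext (add_left_cancel hvw)
      · rintro _ ⟨v, hv, rfl⟩ _ ⟨w, hw, rfl⟩ hvw
        have hvw' : v ≠ w := fun h' => hvw (by rw [h'])
        obtain ⟨z, hz, hz1⟩ := hA3 v hv w hw hvw'
        refine ⟨c + (z : X), ?_, hKmem z hz1⟩
        rw [convexHull_pair]
        obtain ⟨a, b, ha, hb, hab, rfl⟩ := hz
        refine ⟨a, b, ha, hb, hab, ?_⟩
        simp only [Submodule.coe_add, Submodule.coe_smul]
        rw [smul_add, smul_add]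
        have : c = a • c + b • c := by rw [← add_smul, hab, one_smul]
        conv_rhs => rw [this]
        abel

end Topology

end Pool.Agent.helper32.Hidden
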